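import Mathlib

/-! Convex combinations of convex functions in the class Sigma (MP_308aa3_an): statements. -/

open Set Filter Topology Complex Metric

noncomputable section

namespace Y242.CS

/-- exterior of the unit disc -/
def Ext : Set ℂ := {z : ℂ | 1 < ‖z‖}

/-- closed exterior of the unit disc -/
def ExtC : Set ℂ := {z : ℂ | 1 ≤ ‖z‖}

/-- sufficient condition for a convex complement -/
def S_1 : Prop := ∀ F : ℂ → ℂ, (∀ z ∈ ExtC, AnalyticAt ℂ F z) → InjOn F ExtC →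
  Tendsto (fun z => F z - z) (Bornology.cobounded ℂ) (𝓝 0) → (∀ z ∈ ExtC, deriv F z ≠ 0) →
  (∀ z : ℂ, ‖z‖ = 1 → 0 ≤ (1 + z * deriv (deriv F) z / deriv F z).re) →
  Convex ℝ (F '' Ext)ᶜ

/-- local obstruction to a convex complement -/
def S_2 : Prop := ∀ H : ℂ → ℂ, (∀ z ∈ ExtC, AnalyticAt ℂ H z) → InjOn H ExtC →
  deriv H 1 ≠ 0 → (1 + deriv (deriv H) 1 / deriv H 1).re < 0 → ¬ Convex ℝ (H '' Ext)ᶜ

/-- the polynomial `ψ` (for `s = 1` or `s = -1`) -/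
def psi (s : ℝ) (u : ℂ) : ℂ :=
  u - (s : ℂ) * (I / 10) * (4 / 5 * u - 19 / 20 * u ^ 2 + u ^ 3 / 3)

/-- the function with derivative `exp (ψ(z⁻²)/2)` -/
def S_3 : Prop := ∃ κ : ℝ, κ < 1 ∧ ∀ s : ℝ, |s| ≤ 1 → ∃ F : ℂ → ℂ,
  (∀ z : ℂ, z ≠ 0 → HasDerivAt F (exp (psi s (z⁻¹ ^ 2) / 2)) z) ∧
  Tendsto (fun z => F z - z) (Bornology.cobounded ℂ) (𝓝 0) ∧
  ∀ z ∈ ExtC, ∀ w ∈ ExtC, ‖(F z - z) - (F w - w)‖ ≤ κ * ‖z - w‖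

/-- curvature computations -/
def S_4 : Prop := ∀ F G : ℂ → ℂ,
  (∀ z : ℂ, z ≠ 0 → HasDerivAt F (exp (psi 1 (z⁻¹ ^ 2) / 2)) z) →
  (∀ z : ℂ, z ≠ 0 → HasDerivAt G (exp (psi (-1) (z⁻¹ ^ 2) / 2)) z) →
  (∀ z : ℂ, ‖z‖ = 1 → 0 ≤ (1 + z * deriv (deriv F) z / deriv F z).re) ∧
  (∀ z : ℂ, ‖z‖ = 1 → 0 ≤ (1 + z * deriv (deriv G) z / deriv G z).re) ∧
  ∀ t : ℝ, 0 < t → t < 1 →
    deriv (fun z => (t : ℂ) * F z + (1 - t) * G z) 1 ≠ 0 ∧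
    (1 + deriv (deriv (fun z => (t : ℂ) * F z + (1 - t) * G z)) 1 /
      deriv (fun z => (t : ℂ) * F z + (1 - t) * G z) 1).re < 0

end Y242.CS
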